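import Pool.Agent.Y723.Z8.Stm
import Pool.Agent.W571.RT.Rank2
import Pool.Agent.W571.RT.LocM

/-!
# Project Z8, part RNK: the bound of the rank by the local count

Adapted from `Pool.Agent.W571.RT.Rank2` (helper571) and `Pool.Agent.TH841.PT.Prt` (helper841).
-/

set_option autoImplicit false

namespace Pool.Agent.Y474.Z8

open Finset Pool.Agent.W262.RK Pool.Agent.W307.RT Pool.Agent.TH841.PT Pool.Agent.Y723.Z8
open Pool.Agent.W571.RT (jac_sq locm)

/-! ### A large prime divides at most one of the forms -/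

lemma n0 {a b p : ℤ} (h : p ∣ a) : ∀ l : Fin 7, l ≠ 0 → p ∣ F8 a b l → p ∣ b ^ 2
  | 0, h0, _ => absurd rfl h0
  | 1, _, h1 => (show p ∣ b from h1).trans (dvd_pow_self b two_ne_zero)
  | 2, _, h1 => by
    have h2 : p ∣ a - b := h1
    have : b ^ 2 = a * a - (a + b) * (a - b) := by ring
    rw [this]
    exact dvd_sub (h.mul_right _) (h2.mul_left _)
  | 3, _, h1 => by
    have h2 : p ∣ a + b := h1
    have : b ^ 2 = a * a - (a - b) * (a + b) := by ring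
    rw [this]
    exact dvd_sub (h.mul_right _) (h2.mul_left _)
  | 4, _, h1 => by
    have h2 : p ∣ a ^ 2 + b ^ 2 := h1
    have : b ^ 2 = (a ^ 2 + b ^ 2) - a * a := by ring
    rw [this]
    exact dvd_sub h2 (h.mul_right _)
  | 5, _, h1 => by
    have h2 : p ∣ a ^ 2 - 2 * a * b - b ^ 2 := h1
    have : b ^ 2 = a * (a - 2 * b) - (a ^ 2 - 2 * a * b - b ^ 2) := by ring
    rw [this]
    exact dvd_sub (h.mul_right _) h2
  | 6, _, h1 => by
    have h2 : p ∣ a ^ 2 + 2 * a * b - b ^ 2 := h1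
    have : b ^ 2 = a * (a + 2 * b) - (a ^ 2 + 2 * a * b - b ^ 2) := by ring
    rw [this]
    exact dvd_sub (h.mul_right _) h2

lemma n1 {a b p : ℤ} (h : p ∣ b) : ∀ l : Fin 7, l ≠ 1 → p ∣ F8 a b l → p ∣ a ^ 2
  | 0, _, h1 => (show p ∣ a from h1).trans (dvd_pow_self a two_ne_zero)
  | 1, h0, _ => absurd rfl h0
  | 2, _, h1 => by
    have h2 : p ∣ a - b := h1
    have : a ^ 2 = (a + b) * (a - b) + b * b := by ring
    rw [this]
    exact dvd_add (h2.mul_left _) (h.mul_right _)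
  | 3, _, h1 => by
    have h2 : p ∣ a + b := h1
    have : a ^ 2 = (a - b) * (a + b) + b * b := by ring
    rw [this]
    exact dvd_add (h2.mul_left _) (h.mul_right _)
  | 4, _, h1 => by
    have h2 : p ∣ a ^ 2 + b ^ 2 := h1
    have : a ^ 2 = (a ^ 2 + b ^ 2) - b * b := by ring
    rw [this]
    exact dvd_sub h2 (h.mul_right _)
  | 5, _, h1 => by
    have h2 : p ∣ a ^ 2 - 2 * a * b - b ^ 2 := h1
    have : a ^ 2 = (a ^ 2 - 2 * a * b - b ^ 2) + b * (2 * a + b) := by ring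
    rw [this]
    exact dvd_add h2 (h.mul_right _)
  | 6, _, h1 => by
    have h2 : p ∣ a ^ 2 + 2 * a * b - b ^ 2 := h1
    have : a ^ 2 = (a ^ 2 + 2 * a * b - b ^ 2) + b * (b - 2 * a) := by ring
    rw [this]
    exact dvd_add h2 (h.mul_right _)

lemma n2 (a b : ℤ) (j l : Fin 7) (hj : 2 ≤ j) (hl : j < l) :
    ∃ x y : ℤ, (2 * (a * b)) ^ 2 = x * F8 a b j + y * F8 a b l := by
  have h : ∀ j l : Fin 7, 2 ≤ j → j < l → (j = 2 ∧ l = 3) ∨ (j = 2 ∧ l = 4) ∨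
      (j = 2 ∧ l = 5) ∨ (j = 2 ∧ l = 6) ∨ (j = 3 ∧ l = 4) ∨ (j = 3 ∧ l = 5) ∨
      (j = 3 ∧ l = 6) ∨ (j = 4 ∧ l = 5) ∨ (j = 4 ∧ l = 6) ∨ (j = 5 ∧ l = 6) := by decide
  rcases h j l hj hl with ⟨rfl, rfl⟩ | ⟨rfl, rfl⟩ | ⟨rfl, rfl⟩ | ⟨rfl, rfl⟩ | ⟨rfl, rfl⟩ |
    ⟨rfl, rfl⟩ | ⟨rfl, rfl⟩ | ⟨rfl, rfl⟩ | ⟨rfl, rfl⟩ | ⟨rfl, rfl⟩
  · refine ⟨2 * a * b ^ 2, 2 * a * b ^ 2, ?_⟩
    show _ = _ * (a - b) + _ * (a + b)
    ring
  · refine ⟨-(a - b) * (2 * a * b), 2 * a * b, ?_⟩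
    show _ = _ * (a - b) + _ * (a ^ 2 + b ^ 2)
    ring
  · refine ⟨2 * a ^ 2 * (a - b), -(2 * a ^ 2), ?_⟩
    show _ = _ * (a - b) + _ * (a ^ 2 - 2 * a * b - b ^ 2)
    ring
  · refine ⟨-(2 * a ^ 2) * (a + 3 * b), 2 * a ^ 2, ?_⟩
    show _ = _ * (a - b) + _ * (a ^ 2 + 2 * a * b - b ^ 2)
    ring
  · refine ⟨2 * a * b * (a + b), -(2 * a * b), ?_⟩
    show _ = _ * (a + b) + _ * (a ^ 2 + b ^ 2)
    ring
  · refine ⟨-(2 * a ^ 2) * (a - 3 * b), 2 * a ^ 2, ?_⟩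
    show _ = _ * (a + b) + _ * (a ^ 2 - 2 * a * b - b ^ 2)
    ring
  · refine ⟨2 * a ^ 2 * (a + b), -(2 * a ^ 2), ?_⟩
    show _ = _ * (a + b) + _ * (a ^ 2 + 2 * a * b - b ^ 2)
    ring
  · refine ⟨b * (a + b), b * (b - a), ?_⟩
    show _ = _ * (a ^ 2 + b ^ 2) + _ * (a ^ 2 - 2 * a * b - b ^ 2)
    ring
  · refine ⟨b * (b - a), b * (a + b), ?_⟩
    show _ = _ * (a ^ 2 + b ^ 2) + _ * (a ^ 2 + 2 * a * b - b ^ 2)
    ring
  · refine ⟨-(a * b), a * b, ?_⟩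
    show _ = _ * (a ^ 2 - 2 * a * b - b ^ 2) + _ * (a ^ 2 + 2 * a * b - b ^ 2)
    ring

lemma pair {a b : ℤ} (hab : IsCoprime a b) {p : ℕ} (hp : p.Prime) (h2 : 2 < p) {j l : Fin 7}
    (hjl : j ≠ l) (hj : (p : ℤ) ∣ F8 a b j) : ¬ (p : ℤ) ∣ F8 a b l := by
  intro hl
  have hpi : Prime (p : ℤ) := Nat.prime_iff_prime_int.1 hp
  have hna : ∀ i, i ≠ 0 → (p : ℤ) ∣ F8 a b i → ¬ (p : ℤ) ∣ a := fun i hi h3 h4 =>
    hpi.not_isUnit (hab.isUnit_of_dvd' h4 (hpi.dvd_of_dvd_pow (n0 h4 i hi h3)))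
  have hnb : ∀ i, i ≠ 1 → (p : ℤ) ∣ F8 a b i → ¬ (p : ℤ) ∣ b := fun i hi h3 h4 =>
    hpi.not_isUnit (hab.isUnit_of_dvd' (hpi.dvd_of_dvd_pow (n1 h4 i hi h3)) h4)
  have h01 : ∀ i : Fin 7, i < 2 → i = 0 ∨ i = 1 := by decide
  have key : ∀ i k : Fin 7, i < k → (p : ℤ) ∣ F8 a b i → (p : ℤ) ∣ F8 a b k → False := by
    intro i k hik hi hk
    rcases lt_or_ge i 2 with h | h
    · rcases h01 i h with rfl | rfl
      · exact hna k hik.ne' hk hi
      · exact hnb k hik.ne' hk hi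
    · obtain ⟨x, y, e⟩ := n2 a b i k h hik
      have h3 : (p : ℤ) ∣ (2 * (a * b)) ^ 2 := by
        rw [e]
        exact dvd_add (hi.mul_left _) (hk.mul_left _)
      have h4 := hpi.dvd_of_dvd_pow h3
      rcases hpi.dvd_or_dvd h4 with h5 | h5
      · have := Int.le_of_dvd (by norm_num) h5
        omega
      · rcases hpi.dvd_or_dvd h5 with h6 | h6
        · exact hna i (by rintro rfl; exact absurd h (by decide)) hi h6
        · exact hnb i (by rintro rfl; exact absurd h (by decide)) hi h6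
  rcases lt_or_gt_of_ne hjl with h | h
  · exact key j l h hj hl
  · exact key l j h hl hj

/-! ### The local conditions -/

/-- the constants -/
def kp (j : Fin 7) : ℤ := if c7 j = 2 then -1 else 1

lemma sg0_neg_one {p : ℕ} (hp : p.Prime) (h2 : 2 < p) : sg0 p (-1) = decide (p % 4 = 3) := by
  have ho : Odd p := hp.odd_of_ne_two (by omega)
  unfold sg0
  rw [decide_eq_decide, jacobiSym.at_neg_one ho]
  have h3 : p % 4 = 1 ∨ p % 4 = 3 := by
    obtain ⟨k, hk⟩ := ho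
    omega
  rcases h3 with h | h
  · rw [ZMod.χ₄_nat_one_mod_four h, h]
    decide
  · rw [ZMod.χ₄_nat_three_mod_four h, h]
    decide

lemma sg0_one (p : ℕ) : sg0 p 1 = false := by
  unfold sg0
  rw [jacobiSym.one_left]
  decide

lemma jac4 {a b : ℤ} (hab : IsCoprime a b) {p : ℕ} (hp : p.Prime) (h2 : 2 < p)
    (h : (p : ℤ) ∣ F8 a b 4) : jacobiSym (-1) p = 1 := by
  have hb : ¬ (p : ℤ) ∣ b := pair hab hp h2 (j := 4) (l := 1) (by decide) h
  have ha : ¬ (p : ℤ) ∣ a := pair hab hp h2 (j := 4) (l := 0) (by decide) h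
  have h3 : (-1) * b ^ 2 ≡ a ^ 2 [ZMOD p] := by
    rw [Int.modEq_iff_dvd]
    have h4 : (p : ℤ) ∣ a ^ 2 + b ^ 2 := h
    have : a ^ 2 - (-1) * b ^ 2 = a ^ 2 + b ^ 2 := by ring
    rw [this]
    exact h4
  have h5 := jacobiSym.mod_left' h3
  rw [jacobiSym.mul_left, jac_sq hp hb, jac_sq hp ha, mul_one] at h5
  exact h5

lemma val_one {p : ℕ} (hp : p.Prime) {x y : ℤ} (hx0 : x ≠ 0) (hx : (p : ℤ) ∣ x)
    (hx2 : ¬ (p : ℤ) ^ 2 ∣ x) (hy : ¬ (p : ℤ) ∣ y) : padicValInt p (x * y) = 1 := by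
  have : Fact p.Prime := ⟨hp⟩
  have hy0 : y ≠ 0 := by
    rintro rfl
    exact hy (dvd_zero _)
  rw [padicValInt.mul hx0 hy0, padicValInt.eq_zero_of_not_dvd hy, add_zero]
  apply le_antisymm
  · by_contra h
    push Not at h
    exact hx2 ((padicValInt_dvd_iff 2 _).2 (Or.inr (by omega)))
  · rcases (padicValInt_dvd_iff (p := p) 1 x).1 (by simpa using hx) with h | h
    · exact absurd h hx0
    · exact h

lemma diff8 (a b : ℤ) : -(M8 a b) - -(N8 a b) =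
    (a ^ 2 - 2 * a * b - b ^ 2) * ((a ^ 2 + 2 * a * b - b ^ 2) * (a ^ 2 + b ^ 2) ^ 2) := by
  unfold M8 N8
  ring

lemma dvd_M8 {a b : ℤ} {p : ℕ} (hp : p.Prime) (h2 : 2 < p) :
    (p : ℤ) ∣ -(M8 a b) ↔ (p : ℤ) ∣ a ∨ (p : ℤ) ∣ b := by
  have hpi : Prime (p : ℤ) := Nat.prime_iff_prime_int.1 hp
  rw [dvd_neg]
  unfold M8
  constructor
  · intro h3
    rcases hpi.dvd_or_dvd (hpi.dvd_of_dvd_pow h3) with h4 | h4
    · rcases hpi.dvd_or_dvd h4 with h5 | h5
      · have := Int.le_of_dvd (by norm_num) h5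
        omega
      · exact Or.inl h5
    · exact Or.inr h4
  · rintro (h3 | h3)
    · exact dvd_pow ((h3.mul_left 2).mul_right b) (by norm_num)
    · exact dvd_pow (h3.mul_left _) (by norm_num)

lemma dvd_N8 {a b : ℤ} {p : ℕ} (hp : p.Prime) :
    (p : ℤ) ∣ -(N8 a b) ↔ (p : ℤ) ∣ a - b ∨ (p : ℤ) ∣ a + b := by
  have hpi : Prime (p : ℤ) := Nat.prime_iff_prime_int.1 hp
  rw [dvd_neg]
  unfold N8
  have e : a ^ 2 - b ^ 2 = (a - b) * (a + b) := by ring
  rw [e]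
  constructor
  · intro h3
    exact hpi.dvd_or_dvd (hpi.dvd_of_dvd_pow h3)
  · rintro (h3 | h3)
    · exact dvd_pow (h3.mul_right _) (by norm_num)
    · exact dvd_pow (h3.mul_left _) (by norm_num)

lemma loc8 {a b : ℤ} (hab : IsCoprime a b) (h0 : ∀ j, F8 a b j ≠ 0) {p : ℕ} (hp : p.Prime)
    (h2 : 2 < p) (j : Fin 7) (h : (p : ℤ) ∣ F8 a b j) (h' : ¬ (p : ℤ) ^ 2 ∣ F8 a b j) :
    LocM (c7 j) (kp j) p (-(M8 a b)) (-(N8 a b)) ∧ sg0 p (kp j) = ty8 j p := by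
  have hpi : Prime (p : ℤ) := Nat.prime_iff_prime_int.1 hp
  have hM := dvd_M8 (a := a) (b := b) hp h2
  have hN := dvd_N8 (a := a) (b := b) hp
  have nd : ∀ l : Fin 7, j ≠ l → ¬ (p : ℤ) ∣ F8 a b l := fun l hl => pair hab hp h2 hl h
  have nM : j ≠ 0 → j ≠ 1 → ¬ (p : ℤ) ∣ -(M8 a b) := by
    intro e0 e1 h3
    rcases hM.1 h3 with h4 | h4
    · exact nd 0 e0 h4
    · exact nd 1 e1 h4
  have nN : j ≠ 2 → j ≠ 3 → ¬ (p : ℤ) ∣ -(N8 a b) := by
    intro e0 e1 h3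
    rcases hN.1 h3 with h4 | h4
    · exact nd 2 e0 h4
    · exact nd 3 e1 h4
  have jN : j ≠ 2 → j ≠ 3 → jacobiSym (1 * -(-(N8 a b))) p = 1 := by
    intro e0 e1
    have h3 := nN e0 e1
    rw [dvd_neg] at h3
    rw [one_mul, neg_neg]
    have e : N8 a b = ((a ^ 2 - b ^ 2) ^ 2) ^ 2 := by
      unfold N8
      ring
    rw [e] at h3 ⊢
    exact jac_sq hp fun h4 => h3 (dvd_pow h4 two_ne_zero)
  have jM : j ≠ 0 → j ≠ 1 → jacobiSym (M8 a b) p = 1 := by
    intro e0 e1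
    have h3 := nM e0 e1
    rw [dvd_neg] at h3
    have e : M8 a b = ((2 * a * b) ^ 2) ^ 2 := by
      unfold M8
      ring
    rw [e] at h3 ⊢
    exact jac_sq hp fun h4 => h3 (dvd_pow h4 two_ne_zero)
  have hc : ∀ j : Fin 7, j = 0 ∨ j = 1 ∨ j = 2 ∨ j = 3 ∨ j = 4 ∨ j = 5 ∨ j = 6 := by decide
  have hdiff := diff8 a b
  rcases hc j with rfl | rfl | rfl | rfl | rfl | rfl | rfl
  · refine ⟨?_, sg0_one p⟩
    unfold LocM
    rw [if_pos (show c7 0 = 0 from rfl)]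
    exact ⟨hM.2 (Or.inl h), nN (by decide) (by decide), jN (by decide) (by decide),
      Or.inr (jacobiSym.one_left p)⟩
  · refine ⟨?_, sg0_one p⟩
    unfold LocM
    rw [if_pos (show c7 1 = 0 from rfl)]
    exact ⟨hM.2 (Or.inr h), nN (by decide) (by decide), jN (by decide) (by decide),
      Or.inr (jacobiSym.one_left p)⟩
  · refine ⟨?_, sg0_one p⟩
    unfold LocM
    rw [if_neg (show ¬ c7 2 = 0 by decide), if_pos (show c7 2 = 1 from rfl)]
    refine ⟨hN.2 (Or.inl h), nM (by decide) (by decide), ?_, Or.inr (jacobiSym.one_left p)⟩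
    rw [show kp 2 = 1 from rfl, one_mul, neg_neg]
    exact jM (by decide) (by decide)
  · refine ⟨?_, sg0_one p⟩
    unfold LocM
    rw [if_neg (show ¬ c7 3 = 0 by decide), if_pos (show c7 3 = 1 from rfl)]
    refine ⟨hN.2 (Or.inr h), nM (by decide) (by decide), ?_, Or.inr (jacobiSym.one_left p)⟩
    rw [show kp 3 = 1 from rfl, one_mul, neg_neg]
    exact jM (by decide) (by decide)
  · have h4 := jac4 hab hp h2 h
    refine ⟨?_, ?_⟩
    · unfold LocM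
      rw [if_neg (show ¬ c7 4 = 0 by decide), if_neg (show ¬ c7 4 = 1 by decide)]
      refine ⟨?_, nM (by decide) (by decide), ?_, Or.inr h4⟩
      · rw [hdiff]
        have h5 : (p : ℤ) ∣ a ^ 2 + b ^ 2 := h
        exact Dvd.dvd.mul_left (Dvd.dvd.mul_left (dvd_pow h5 two_ne_zero) _) _
      · rw [show kp 4 = -1 from rfl, neg_one_mul, neg_neg]
        exact jM (by decide) (by decide)
    · show sg0 p (-1) = false
      unfold sg0
      rw [h4]
      decide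
  · refine ⟨?_, ?_⟩
    · unfold LocM
      rw [if_neg (show ¬ c7 5 = 0 by decide), if_neg (show ¬ c7 5 = 1 by decide)]
      have h5 : (p : ℤ) ∣ a ^ 2 - 2 * a * b - b ^ 2 := h
      refine ⟨?_, nM (by decide) (by decide), ?_, Or.inl ?_⟩
      · rw [hdiff]
        exact h5.mul_right _
      · rw [show kp 5 = -1 from rfl, neg_one_mul, neg_neg]
        exact jM (by decide) (by decide)
      · rw [hdiff, val_one hp (x := a ^ 2 - 2 * a * b - b ^ 2) (h0 5) h5 h']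
        · exact odd_one
        · intro h6
          rcases hpi.dvd_or_dvd h6 with h7 | h7
          · exact nd 6 (by decide) h7
          · exact nd 4 (by decide) (hpi.dvd_of_dvd_pow h7)
    · show sg0 p (-1) = decide (5 ≤ 5 ∧ p % 4 = 3)
      rw [sg0_neg_one hp h2, decide_eq_decide]
      exact ⟨fun h5 => ⟨le_rfl, h5⟩, fun h5 => h5.2⟩
  · refine ⟨?_, ?_⟩
    · unfold LocM
      rw [if_neg (show ¬ c7 6 = 0 by decide), if_neg (show ¬ c7 6 = 1 by decide)]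
      have h5 : (p : ℤ) ∣ a ^ 2 + 2 * a * b - b ^ 2 := h
      refine ⟨?_, nM (by decide) (by decide), ?_, Or.inl ?_⟩
      · rw [hdiff]
        exact Dvd.dvd.mul_left (h5.mul_right _) _
      · rw [show kp 6 = -1 from rfl, neg_one_mul, neg_neg]
        exact jM (by decide) (by decide)
      · have e : (a ^ 2 - 2 * a * b - b ^ 2) * ((a ^ 2 + 2 * a * b - b ^ 2) *
            (a ^ 2 + b ^ 2) ^ 2) = (a ^ 2 + 2 * a * b - b ^ 2) *
            ((a ^ 2 - 2 * a * b - b ^ 2) * (a ^ 2 + b ^ 2) ^ 2) := by ring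
        rw [hdiff, e, val_one hp (x := a ^ 2 + 2 * a * b - b ^ 2) (h0 6) h5 h']
        · exact odd_one
        · intro h6
          rcases hpi.dvd_or_dvd h6 with h7 | h7
          · exact nd 5 (by decide) h7
          · exact nd 4 (by decide) (hpi.dvd_of_dvd_pow h7)
    · show sg0 p (-1) = decide (5 ≤ 6 ∧ p % 4 = 3)
      rw [sg0_neg_one hp h2, decide_eq_decide]
      exact ⟨fun h5 => ⟨by norm_num, h5⟩, fun h5 => h5.2⟩

lemma LT_xc {c : Fin 4} (hc : c ≠ 3) (e : Fin 3 → Bool) (m neg : Bool) : XC (LT c e m neg) := by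
  have x4 : ∀ c c' d d' : Bool, xor (xor c c') (xor d d') = xor (xor c d) (xor c' d') := by
    decide
  have x3 : ∀ a a' e : Bool, xor (a && e) (a' && e) = (xor a a' && e) := by decide
  have x0 : ∀ e : Bool, false = (false && e) := by decide
  have h3 : ∀ c : Fin 4, c ≠ 3 → c = 0 ∨ c = 1 ∨ c = 2 := by decide
  rcases h3 c hc with rfl | rfl | rfl
  · unfold XC Pool.Agent.TH841.PT.LT
    simp only [if_true]
    refine ⟨⟨trivial, x0 _⟩, ?_⟩
    intro a b c d a' b' c' d' h1 h2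
    rw [x4, h1.2, h2.2, x3, h1.1, h2.1]
    exact ⟨rfl, rfl⟩
  · unfold XC Pool.Agent.TH841.PT.LT
    rw [if_neg (show ¬ (1 : Fin 4) = 0 by decide), if_pos rfl]
    refine ⟨⟨rfl, x0 _⟩, ?_⟩
    intro a b c d a' b' c' d' h1 h2
    rw [if_neg (show ¬ (1 : Fin 4) = 0 by decide), if_pos rfl] at h1 h2 ⊢
    rw [h1.2, h2.2, x3, h1.1, h2.1]
    exact ⟨rfl, rfl⟩
  · unfold XC Pool.Agent.TH841.PT.LT
    rw [if_neg (show ¬ (2 : Fin 4) = 0 by decide), if_neg (show ¬ (2 : Fin 4) = 1 by decide),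
      if_pos rfl]
    refine ⟨⟨rfl, x0 _⟩, ?_⟩
    intro a b c d a' b' c' d' h1 h2
    rw [if_neg (show ¬ (2 : Fin 4) = 0 by decide), if_neg (show ¬ (2 : Fin 4) = 1 by decide),
      if_pos rfl] at h1 h2 ⊢
    rw [h1.2, h2.2, x3, h1.1, h2.1]
    exact ⟨rfl, rfl⟩

lemma LT_of_LL {c : Fin 4} (hc : c ≠ 3) {κ : ℤ} {e : Fin 3 → Bool} {m : Bool} {p : ℕ}
    (h : sg0 p κ = e 0) {v w x y : Bool} (hL : LL c (fun _ => κ) false p v w x y) :
    LT c e m false v w x y := by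
  have h3 : ∀ c : Fin 4, c ≠ 3 → c = 0 ∨ c = 1 ∨ c = 2 := by decide
  rcases h3 c hc with rfl | rfl | rfl
  · unfold LL at hL
    unfold Pool.Agent.TH841.PT.LT
    rw [if_pos rfl] at hL ⊢
    rw [← h]
    exact hL
  · unfold LL at hL
    unfold Pool.Agent.TH841.PT.LT
    rw [if_neg (show ¬ (1 : Fin 4) = 0 by decide), if_pos rfl] at hL ⊢
    rw [← h]
    exact hL
  · unfold LL at hL
    unfold Pool.Agent.TH841.PT.LT
    rw [if_neg (show ¬ (2 : Fin 4) = 0 by decide), if_neg (show ¬ (2 : Fin 4) = 1 by decide),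
      if_pos rfl] at hL ⊢
    rw [← h]
    exact hL

/-! ### The parts of the values -/

lemma pr8_pow {z : ℕ} {a b : ℤ} (h0 : ∀ j, F8 a b j ≠ 0) (i : Fin 7 × Bool) {p : ℕ}
    (hp : p.Prime) (hz : z < p) {k : ℕ} (hk : k ≠ 0) : (p : ℤ) ^ k ∣ pr8 z a b i ↔
      (p : ℤ) ^ k ∣ F8 a b i.1 ∧ ty8 i.1 p = i.2 := by
  have h1 : ∀ x : ℤ, (p : ℤ) ^ k ∣ x ↔ p ^ k ∣ x.natAbs := by
    intro x
    rw [← Int.natCast_dvd]
    push_cast
    rfl
  unfold pr8
  rw [h1, h1, Int.natAbs_natCast]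
  by_cases hty : ty8 i.1 p = i.2
  · rw [partN_pow (Int.natAbs_ne_zero.2 (h0 _)) hp ⟨hz, hty⟩]
    exact ⟨fun h2 => ⟨h2, hty⟩, fun h2 => h2.1⟩
  · constructor
    · intro h2
      exact absurd (partN_of hp ((dvd_pow_self p hk).trans h2)).2 hty
    · intro h2
      exact absurd h2.2 hty

lemma pr8_dvd {z : ℕ} {a b : ℤ} (h0 : ∀ j, F8 a b j ≠ 0) (i : Fin 7 × Bool) {p : ℕ}
    (hp : p.Prime) (hz : z < p) : (p : ℤ) ∣ pr8 z a b i ↔
      (p : ℤ) ∣ F8 a b i.1 ∧ ty8 i.1 p = i.2 := by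
  have := pr8_pow h0 i hp hz one_ne_zero
  rwa [pow_one] at this

lemma NBT_eq (s : Fin 7 × Bool → ℕ) :
    NBT cls8 e8 s = (NL (∏ j, s j) (LTs cls8 e8 s ∅) : ℝ) := by
  have h : P3 cls8 s = ∅ := by
    unfold P3
    have h1 : univ.filter (fun j : Fin 7 × Bool => cls8 j = 3) = ∅ := by decide
    rw [h1, prod_empty]
    exact Nat.primeFactors_one
  unfold NBT
  rw [h, card_empty, pow_zero, one_mul, powerset_empty, sum_singleton]

lemma cls8_ne (i : Fin 7 × Bool) : cls8 i ≠ 3 := by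
  revert i
  decide

lemma F8_le {a b : ℤ} {X : ℕ} (ha : a.natAbs ≤ X) (hb : b.natAbs ≤ X) (hX : 1 ≤ X) :
    ∀ j : Fin 7, (F8 a b j).natAbs ≤ 4 * X ^ 2 := by
  have hX' : (1 : ℤ) ≤ X := by exact_mod_cast hX
  have ha' : |a| ≤ X := by
    rw [Int.abs_eq_natAbs]
    exact_mod_cast ha
  have hb' : |b| ≤ X := by
    rw [Int.abs_eq_natAbs]
    exact_mod_cast hb
  obtain ⟨a1, a2⟩ := abs_le.1 ha'
  obtain ⟨b1, b2⟩ := abs_le.1 hb'
  have hXX : (X : ℤ) ≤ X ^ 2 := by nlinarith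
  have haa : a ^ 2 ≤ X ^ 2 := by nlinarith
  have hbb : b ^ 2 ≤ X ^ 2 := by nlinarith
  have hab1 : a * b ≤ X ^ 2 := by nlinarith [sq_nonneg (a - b)]
  have hab2 : -(a * b) ≤ X ^ 2 := by nlinarith [sq_nonneg (a + b)]
  have hsa := sq_nonneg a
  have hsb := sq_nonneg b
  have key : ∀ x : ℤ, |x| ≤ 4 * (X : ℤ) ^ 2 → x.natAbs ≤ 4 * X ^ 2 := by
    intro x hx
    rw [Int.abs_eq_natAbs] at hx
    exact_mod_cast hx
  have hc : ∀ j : Fin 7, j = 0 ∨ j = 1 ∨ j = 2 ∨ j = 3 ∨ j = 4 ∨ j = 5 ∨ j = 6 := by decide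
  intro j
  apply key
  rcases hc j with rfl | rfl | rfl | rfl | rfl | rfl | rfl
  · show |a| ≤ _
    rw [abs_le]
    constructor <;> linarith
  · show |b| ≤ _
    rw [abs_le]
    constructor <;> linarith
  · show |a - b| ≤ _
    rw [abs_le]
    constructor <;> linarith
  · show |a + b| ≤ _
    rw [abs_le]
    constructor <;> linarith
  · show |a ^ 2 + b ^ 2| ≤ _
    rw [abs_le]
    constructor <;> linarith
  · show |a ^ 2 - 2 * a * b - b ^ 2| ≤ _
    rw [abs_le]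
    constructor <;> nlinarith
  · show |a ^ 2 + 2 * a * b - b ^ 2| ≤ _
    rw [abs_le]
    constructor <;> nlinarith

/-- the number of the primes outside `S1` -/
lemma bad8 {a b : ℤ} (h0 : ∀ j, F8 a b j ≠ 0) {z y X k : ℕ}
    (ha : a.natAbs ≤ X) (hb : b.natAbs ≤ X) (hX : 1 ≤ X) (hz : 2 ≤ z) (hzy : z < y)
    (hK : X < (y + 1) ^ k) :
    ((2 * -(M8 a b) * -(N8 a b) * (-(M8 a b) - -(N8 a b))).natAbs.primeFactors.filter
        (fun q => ¬ q ∣ ∏ i, S1 z y (pr8 z a b) i)).card ≤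
      z + 7 * (2 * k + 2) + ∑ i, (S2 z y (pr8 z a b) i).primeFactors.card := by
  have hsub : ((2 * -(M8 a b) * -(N8 a b) * (-(M8 a b) - -(N8 a b))).natAbs.primeFactors.filter
        (fun q => ¬ q ∣ ∏ i, S1 z y (pr8 z a b) i)) ⊆
      ((Icc 1 z) ∪ univ.biUnion (fun j => (F8 a b j).natAbs.primeFactors.filter (y < ·))) ∪
        univ.biUnion (fun i => (S2 z y (pr8 z a b) i).primeFactors) := by
    intro q hq
    rw [mem_filter] at hq
    have hp := Nat.prime_of_mem_primeFactors hq.1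
    have hdv := Nat.dvd_of_mem_primeFactors hq.1
    rw [mem_union, mem_union, mem_Icc]
    rcases Nat.lt_or_ge z q with h | h
    swap
    · exact Or.inl (Or.inl ⟨hp.one_lt.le, h⟩)
    · have hqi : Prime (q : ℤ) := Nat.prime_iff_prime_int.1 hp
      have hq2 : 2 < q := by omega
      have hdv2 : (q : ℤ) ∣ 2 * -(M8 a b) * -(N8 a b) * (-(M8 a b) - -(N8 a b)) :=
        Int.natCast_dvd.2 hdv
      have hk : ∃ l, (q : ℤ) ∣ F8 a b l := by
        rcases hqi.dvd_or_dvd hdv2 with h1 | h1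
        · rcases hqi.dvd_or_dvd h1 with h2 | h2
          · rcases hqi.dvd_or_dvd h2 with h3 | h3
            · exfalso
              have := Int.le_of_dvd (by norm_num) h3
              omega
            · rcases (dvd_M8 hp hq2).1 h3 with h4 | h4
              · exact ⟨0, h4⟩
              · exact ⟨1, h4⟩
          · rcases (dvd_N8 hp).1 h2 with h4 | h4
            · exact ⟨2, h4⟩
            · exact ⟨3, h4⟩
        · rw [diff8] at h1
          rcases hqi.dvd_or_dvd h1 with h2 | h2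
          · exact ⟨5, h2⟩
          · rcases hqi.dvd_or_dvd h2 with h3 | h3
            · exact ⟨6, h3⟩
            · exact ⟨4, hqi.dvd_of_dvd_pow h3⟩
      obtain ⟨l, hl⟩ := hk
      rcases Nat.lt_or_ge y q with hyq | hyq
      · left; right
        rw [mem_biUnion]
        refine ⟨l, mem_univ _, ?_⟩
        rw [mem_filter, Nat.mem_primeFactors]
        exact ⟨⟨hp, Int.natCast_dvd.1 hl, Int.natAbs_ne_zero.2 (h0 l)⟩, hyq⟩
      · right
        have hPS : q ∈ PS z y := mem_PS.2 ⟨⟨h, hyq⟩, hp⟩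
        rw [mem_biUnion]
        refine ⟨(l, ty8 l q), mem_univ _, ?_⟩
        have hl' : (q : ℤ) ∣ pr8 z a b (l, ty8 l q) := (pr8_dvd h0 _ hp h).2 ⟨hl, rfl⟩
        have hsq : (q : ℤ) ^ 2 ∣ pr8 z a b (l, ty8 l q) := by
          by_contra hcon
          apply hq.2
          refine dvd_trans ?_ (dvd_prod_of_mem _ (mem_univ (l, ty8 l q)))
          exact dvd_prod_of_mem _ (mem_filter.2 ⟨hPS, hl', hcon⟩)
        rw [Nat.mem_primeFactors]
        refine ⟨hp, dvd_prod_of_mem _ (mem_filter.2 ⟨hPS, hsq⟩), ?_⟩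
        exact prod_ne_zero_iff.2 fun p hp => (mem_PS.1 (mem_filter.1 hp).1).2.ne_zero
  have hone : ∀ j, ((F8 a b j).natAbs.primeFactors.filter (y < ·)).card ≤ 2 * k + 2 := by
    intro j
    set S := (F8 a b j).natAbs.primeFactors.filter (y < ·) with hS
    have h1 : (y + 1) ^ S.card ≤ ∏ q ∈ S, q :=
      Finset.pow_card_le_prod _ _ _ (fun q hq => by
        have := (mem_filter.1 hq).2
        omega)
    have h2 : ∏ q ∈ S, q ∣ (F8 a b j).natAbs :=
      (prod_dvd_prod_of_subset _ _ _ (filter_subset _ _)).trans (Nat.prod_primeFactors_dvd _)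
    have h3 : ∏ q ∈ S, q ≤ (F8 a b j).natAbs :=
      Nat.le_of_dvd (Nat.pos_of_ne_zero (Int.natAbs_ne_zero.2 (h0 j))) h2
    have h4 : (y + 1) ^ S.card < (y + 1) ^ (2 * k + 2) := by
      calc (y + 1) ^ S.card ≤ 4 * X ^ 2 := h1.trans (h3.trans (F8_le ha hb hX j))
        _ < 4 * ((y + 1) ^ k) ^ 2 :=
            Nat.mul_lt_mul_of_pos_left (Nat.pow_lt_pow_left hK (by norm_num)) (by norm_num)
        _ ≤ (y + 1) ^ 2 * ((y + 1) ^ k) ^ 2 := by
            apply Nat.mul_le_mul_right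
            nlinarith
        _ = (y + 1) ^ (2 * k + 2) := by ring
    exact ((Nat.pow_lt_pow_iff_right (by omega)).1 h4).le
  refine (card_le_card hsub).trans ((card_union_le _ _).trans (add_le_add
    ((card_union_le _ _).trans (add_le_add ?_ ?_)) card_biUnion_le))
  · simp
  · refine card_biUnion_le.trans ?_
    refine (sum_le_sum fun j _ => hone j).trans ?_
    rw [sum_const, card_univ, smul_eq_mul, Fintype.card_fin]

/-- The bound of the rank by the local count. -/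
theorem rnk : S_RNK := by
  refine ⟨10, fun z hz => ⟨4 ^ (z + 16), 4 ^ 14, by positivity, by norm_num, ?_⟩⟩
  intro X y k a b hab h0 haX hbX hX hzy hXk
  have hdiff := diff8 a b
  have hA0 : -(M8 a b) ≠ 0 := by
    have h1 : a ≠ 0 := h0 0
    have h2 : b ≠ 0 := h0 1
    unfold M8
    exact neg_ne_zero.2 (pow_ne_zero _ (mul_ne_zero (mul_ne_zero two_ne_zero h1) h2))
  have hB0 : -(N8 a b) ≠ 0 := by
    have h1 : a - b ≠ 0 := h0 2
    have h2 : a + b ≠ 0 := h0 3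
    unfold N8
    have e : a ^ 2 - b ^ 2 = (a - b) * (a + b) := by ring
    rw [e]
    exact neg_ne_zero.2 (pow_ne_zero _ (mul_ne_zero h1 h2))
  have hAB : -(M8 a b) ≠ -(N8 a b) := by
    intro h
    rw [h, sub_self] at hdiff
    exact mul_ne_zero (h0 5) (mul_ne_zero (h0 6) (pow_ne_zero 2 (h0 4))) hdiff.symm
  set f := pr8 z a b with hf
  set s := S1 z y f with hs
  have hmem : s ∈ Tup (Fin 7 × Bool) z y := by
    apply Pool.Agent.W571.RT.S1_mem
    rintro p hp hzp i i' hii' ⟨h1, h2⟩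
    rw [hf, pr8_dvd h0 i hp hzp] at h1
    rw [hf, pr8_dvd h0 i' hp hzp] at h2
    by_cases hj : i.1 = i'.1
    · apply hii'
      refine Prod.ext hj ?_
      rw [← h1.2, ← h2.2, hj]
    · exact pair hab hp (by omega) hj h1.1 h2.1
  have hmd : ∏ i, s i ∣ PP z y := Tup_prod_dvd hmem
  have hPSof : ∀ p : ℕ, p.Prime → p ∣ ∏ i, s i → p ∈ PS z y := fun p hp h =>
    (prime_dvd_PP hp).1 (h.trans hmd)
  have hodd2 : ∀ p : ℕ, p.Prime → p ∣ ∏ i, s i → 2 < p := by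
    intro p hp h
    have h1 := (mem_PS.1 (hPSof p hp h)).1.1
    omega
  have hdesc : DESC4 := Pool.Agent.W214.RK2.desc4
  have hloc : LOCM := locm
  have hd := hdesc (∏ i, s i) (LTs cls8 e8 s ∅) (-(M8 a b)) (-(N8 a b)) hA0 hB0 hAB
    (by
      rw [← Nat.not_even_iff_odd, even_iff_two_dvd]
      intro h
      exact absurd (hodd2 2 Nat.prime_two h) (by norm_num))
    ((PP_squarefree z y).squarefree_of_dvd hmd)
    (fun p hp hpd => ⟨fun i hi => (LT_xc (cls8_ne i) (e8 i) _ _).1,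
      fun a1 b1 c1 d1 a2 b2 c2 d2 e1 e2 i hi =>
        (LT_xc (cls8_ne i) (e8 i) _ _).2 a1 b1 c1 d1 a2 b2 c2 d2 (e1 i hi) (e2 i hi)⟩)
    (fun p hp hpd x x' hx' hcurve e1 e2 he1 he2 hsq1 hsq2 i hi => by
      have hpp : p.Prime := Fact.out
      have his := (Pool.Agent.W571.RT.S1_dvd_iff hpp).1 hi
      have hzp := (mem_PS.1 his.1).1.1
      have h2p : 2 < p := hodd2 p hpp hpd
      have h1 := his.2.1
      rw [hf, pr8_dvd h0 i hpp hzp] at h1
      have h2 : ¬ (p : ℤ) ^ 2 ∣ F8 a b i.1 := by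
        intro h3
        apply his.2.2
        rw [hf, pr8_pow h0 i hpp hzp two_ne_zero]
        exact ⟨h3, h1.2⟩
      obtain ⟨h3, h4⟩ := loc8 hab h0 hpp h2p i.1 h1.1 h2
      have hκ : ¬ (p : ℤ) ∣ kp i.1 := by
        unfold kp
        intro h5
        have h6 : (p : ℤ) ∣ 1 := by
          split_ifs at h5
          · exact (dvd_neg.1 h5)
          · exact h5
        have := Int.le_of_dvd (by norm_num) h6
        omega
      have hfin := hloc (cls8 i) (kp i.1) p (-(M8 a b)) (-(N8 a b)) (cls8_ne i)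
        (by omega) hκ hA0 hB0 hAB h3 x x' hx' hcurve e1 e2 he1 he2 hsq1 hsq2
      have hdec : decide (p ∈ (∅ : Finset ℕ)) = false := by simp
      rw [hdec]
      exact LT_of_LL (cls8_ne i) (h4.trans h1.2) hfin)
  have hc := bad8 h0 haX hbX hX (z := z) (y := y) (by omega) hzy hXk
  rw [← hf, ← hs] at hc
  rw [NBT_eq]
  have h1 : (2 : ℝ) ^ Module.finrank ℤ (EAB (-(M8 a b)) (-(N8 a b))).toAffine.Point ≤
      4 ^ (((2 * -(M8 a b) * -(N8 a b) * (-(M8 a b) - -(N8 a b))).natAbs.primeFactors.filter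
        (fun q => ¬ q ∣ ∏ i, s i)).card + 2) * (NL (∏ i, s i) (LTs cls8 e8 s ∅) : ℝ) := by
    exact_mod_cast hd
  refine h1.trans (mul_le_mul_of_nonneg_right ?_ (Nat.cast_nonneg _))
  calc (4 : ℝ) ^ (((2 * -(M8 a b) * -(N8 a b) * (-(M8 a b) - -(N8 a b))).natAbs.primeFactors.filter
        (fun q => ¬ q ∣ ∏ i, s i)).card + 2)
      ≤ 4 ^ ((z + 16) + 14 * k + ∑ i, (S2 z y f i).primeFactors.card) :=
        pow_le_pow_right₀ (by norm_num) (by omega)
    _ = 4 ^ (z + 16) * (4 ^ 14) ^ k * 4 ^ (∑ i, (S2 z y f i).primeFactors.card) := by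
        rw [pow_add, pow_add (4 : ℝ) (z + 16) (14 * k), pow_mul]

end Pool.Agent.Y474.Z8
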